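import Pool.Agent.W353.ST.Nat

/-!
# The Sato–Tate conjecture over `K` and over its extension fields

`K` is a number field, `G` a compact group (the Sato–Tate group of an abelian variety over `K`) with Haar
probability measure `μ`, and `x v ∈ G` is in the Frobenius class of the prime `v`.  If the classes of the
`x v` are equidistributed (the Sato–Tate conjecture over `K`), then the `L`-functions of `r ⊗ A` are
automatically holomorphic and nonzero at the points of the line `Re s = 1` where they have a meromorphic
continuation, for all irreducible representations `r` of `G` that are not trivial (not scalar, away from
the point `1`) on the identity component and all Artin representations `A` of `K`.  Consequently the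
equidistribution over an extension field `F` of `K` follows from local meromorphic continuations: at the
point `1`, for the analytic density, and at all points of the line `Re s = 1`, for the natural density.
-/

set_option autoImplicit false

namespace Pool.Agent.Results.MP_c481b3_nt.AutomaticNonvanishing

open NumberField IsDedekindDomain MeasureTheory
open Pool.Agent.W353.ST
open Pool.Agent.W353.AT (IsFrobeniusElement)

theorem result : ∀ (K : Type) [Field K] [NumberField K] (G : Type) [Group G] [TopologicalSpace G]
    [IsTopologicalGroup G] [CompactSpace G] [MeasurableSpace G] [BorelSpace G]
    (μ : Measure G) [μ.IsHaarMeasure] [IsProbabilityMeasure μ]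
    (x : HeightOneSpectrum (𝓞 K) → G)
    (frob : HeightOneSpectrum (𝓞 K) → Gal(AlgebraicClosure K/K)),
    (∀ v, IsFrobeniusElement v (frob v)) → Equidistributed μ x →
    RegularOnEdge x frob ∧ AnalyticAbove μ x frob ∧ NaturalAbove μ x frob := by
  intro K _ _ G _ _ _ _ _ _ μ _ _ x frob hfrob hx
  exact ⟨regularOnEdge hx frob hfrob, analyticAbove hx frob hfrob, naturalAbove hx frob hfrob⟩

end Pool.Agent.Results.MP_c481b3_nt.AutomaticNonvanishing
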