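import Pool.Agent.W529.ST.Fin

/-!
# Sato-Tate for a Jacobian over all number fields of bounded degree

`K` is a number field, `f ∈ 𝓞_K[x]` separable of odd degree `2g + 1`, and `A` the Jacobian of the
curve `y² = f(x)` (for `g = 1` any elliptic curve).  For a number field `F ⊇ K` and `d ∈ 𝓞_F` nonzero
let `A_d / F` be the Jacobian of `d y² = f(x)`, the quadratic twist of `A` over `F`.  The class
`x_v ∈ USp(2g)` of the Frobenius at a prime `v` of `F` is given by the normalised traces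
`Tr(Frob_v^m) / N(v)^{m/2}`, `1 ≤ m ≤ g`, so a test function on the classes is a function of these
traces.  For a test function `Φ` and a precision `1/k`, one finite Galois extension `M` of `K`
controls the means over the primes of `F` of norm up to `N`, for all `F` of degree at most `n` over
`K` and all `d`.
-/

set_option autoImplicit false

namespace Pool.Agent.Results.MP_c481b3_nt.GoverningExtension

open NumberField IsDedekindDomain Filter Topology Polynomial

/-- Number of affine points of `d y² = f(x)` with coordinates in the extension of degree `m` of the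
finite field `k`, that is, the field of the elements of the algebraic closure of `k` that are fixed
by the `m`-th power of the Frobenius of `k`. -/
noncomputable def affineCount (k : Type) [Field k] (f : k[X]) (d : k) (m : ℕ) : ℕ :=
  Nat.card {P : AlgebraicClosure k × AlgebraicClosure k //
    P.1 ^ (Nat.card k ^ m) = P.1 ∧ P.2 ^ (Nat.card k ^ m) = P.2 ∧
    algebraMap k (AlgebraicClosure k) d * P.2 ^ 2 = aeval P.1 f}

/-- Trace of the `m`-th power of the Frobenius at `v` on `H¹` of the smooth projective curve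
`d y² = f(x)`, `deg f` odd: it is `q^m + 1` minus the number of points over the field with `q^m`
elements, and there is one point at infinity. -/
noncomputable def traceH1 {F : Type} [Field F] [NumberField F] (v : HeightOneSpectrum (𝓞 F))
    (f : (𝓞 F)[X]) (d : 𝓞 F) (m : ℕ) : ℤ :=
  haveI : v.asIdeal.IsMaximal := v.isMaximal
  letI : Field (𝓞 F ⧸ v.asIdeal) := Ideal.Quotient.field v.asIdeal
  (Ideal.absNorm v.asIdeal : ℤ) ^ m + 1 -
    (affineCount (𝓞 F ⧸ v.asIdeal) (f.map (Ideal.Quotient.mk v.asIdeal))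
      (Ideal.Quotient.mk v.asIdeal d) m + 1)

/-- The normalised traces `Tr(Frob_v^m) / N(v)^{m/2}`, `m = 1, …, g`. -/
noncomputable def frobClass {F : Type} [Field F] [NumberField F] (f : (𝓞 F)[X]) (g : ℕ) (d : 𝓞 F)
    (v : HeightOneSpectrum (𝓞 F)) (m : Fin g) : ℝ :=
  (traceH1 v f d (m + 1) : ℝ) / ((Ideal.absNorm v.asIdeal : ℕ) : ℝ) ^ (((m : ℕ) + 1 : ℝ) / 2)

section
variable {K : Type} [Field K] [NumberField K]

/-- Mean of the test function `Φ` over the classes of the Frobenius elements of `A_d / F` at the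
primes of `F` of norm at most `N`. -/
noncomputable def meanST (f : (𝓞 K)[X]) {g : ℕ} (Φ : (Fin g → ℝ) → ℝ)
    (F : IntermediateField K (AlgebraicClosure K)) [NumberField F] (d : 𝓞 F) (N : ℕ) : ℝ :=
  (∑ᶠ v : {v : HeightOneSpectrum (𝓞 F) // Ideal.absNorm v.asIdeal ≤ N},
      Φ (frobClass (f.map (algebraMap (𝓞 K) (𝓞 F))) g d v.1)) /
    (Nat.card {v : HeightOneSpectrum (𝓞 F) // Ideal.absNorm v.asIdeal ≤ N} : ℝ)

/-- `Φ` is odd: `Φ(-x) = -Φ(x)` for `x ∈ USp(2g)`, since `Tr((-x)^m) = (-1)^m Tr(x^m)`. -/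
def OddTest {g : ℕ} (Φ : (Fin g → ℝ) → ℝ) : Prop :=
  ∀ s : Fin g → ℝ, Φ (fun m => (-1) ^ ((m : ℕ) + 1) * s m) = -Φ s

/-- `d` as an element of the algebraic closure of `K`. -/
noncomputable def inj {F : IntermediateField K (AlgebraicClosure K)} (d : 𝓞 F) : AlgebraicClosure K :=
  ((d : F) : AlgebraicClosure K)

/-- `d ∈ F` and `e ∈ F₀` (`F₀ = F ∩ M` below) are related: either `d e` is a square in `F` and
`√e ∈ M`, or `√d ∉ F M` and `√e ∉ M`. -/
def Related (M : IntermediateField K (AlgebraicClosure K))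
    {F F₀ : IntermediateField K (AlgebraicClosure K)} (d : 𝓞 F) (e : 𝓞 F₀) : Prop :=
  ((∃ u ∈ F, u ^ 2 = inj d * inj e) ∧ ∃ t ∈ M, t ^ 2 = inj e) ∨
    ((∀ y ∈ F ⊔ M, y ^ 2 ≠ inj d) ∧ ∀ y ∈ M, y ^ 2 ≠ inj e)

/-- `M` governs the means of `Φ` at the scales `N ∈ S` up to `1/k`, for all pairs `(F, d)` with
`[F : K] ≤ n`.  (`∃ᶠ N in atTop ⊓ 𝓟 S` means: for infinitely many `N ∈ S`.)

1. If `Φ` is odd and `√d ∉ F M`, then `|mean| < 1/k` for infinitely many `N ∈ S`, and if the means
converge along `S`, the limit has absolute value less than `1/k`.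

2. If `e` over `F₀ = F ∩ M` is related to `d`, the means for `(F, d)` and `(F₀, e)` differ by less than
`1/k` for infinitely many `N ∈ S`; if the means for `(F₀, e)` converge to `c` along `S`, then the means
for `(F, d)` are in `(c - 1/k, c + 1/k)` for infinitely many `N ∈ S`; and if both converge along `S`,
the limits differ by less than `1/k`.

3. There is a list of at most `2^(2([M : K] + 1))` pairs `(G, e)`, `G ⊆ M`, such that every pair
`(F, d)` is related to a member of the list over `F ∩ M`. -/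
def Governs (f : (𝓞 K)[X]) {g : ℕ} (Φ : (Fin g → ℝ) → ℝ) (n k : ℕ) (S : Set ℕ)
    (M : IntermediateField K (AlgebraicClosure K)) : Prop :=
  (OddTest Φ → ∀ (F : IntermediateField K (AlgebraicClosure K)) [NumberField F] (d : 𝓞 F),
    Module.finrank K F ≤ n → d ≠ 0 → (∀ y ∈ F ⊔ M, y ^ 2 ≠ inj d) →
      (∃ᶠ N in atTop ⊓ 𝓟 S, |meanST f Φ F d N| < 1 / k) ∧
      ∀ x : ℝ, Tendsto (meanST f Φ F d) (atTop ⊓ 𝓟 S) (𝓝 x) → |x| < 1 / k) ∧
  (∀ (F F₀ : IntermediateField K (AlgebraicClosure K)) [NumberField F] [NumberField F₀],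
    F₀ = F ⊓ M → Module.finrank K F ≤ n → ∀ (d : 𝓞 F) (e : 𝓞 F₀), d ≠ 0 → e ≠ 0 →
      Related M d e →
      (∃ᶠ N in atTop ⊓ 𝓟 S, |meanST f Φ F d N - meanST f Φ F₀ e N| < 1 / k) ∧
      (∀ c : ℝ, Tendsto (meanST f Φ F₀ e) (atTop ⊓ 𝓟 S) (𝓝 c) →
        ∃ᶠ N in atTop ⊓ 𝓟 S, |meanST f Φ F d N - c| < 1 / k) ∧
      ∀ x c : ℝ, Tendsto (meanST f Φ F d) (atTop ⊓ 𝓟 S) (𝓝 x) →
        Tendsto (meanST f Φ F₀ e) (atTop ⊓ 𝓟 S) (𝓝 c) → |x - c| < 1 / k) ∧
  ∃ (l : ℕ) (G : Fin l → IntermediateField K (AlgebraicClosure K)) (e : ∀ a, 𝓞 (G a)),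
    l ≤ 2 ^ (2 * (Module.finrank K M + 1)) ∧
    (∀ a, G a ≤ M ∧ NumberField (G a) ∧ e a ≠ 0) ∧
    ∀ (F : IntermediateField K (AlgebraicClosure K)) [NumberField F] (d : 𝓞 F),
      d ≠ 0 → ∃ a, G a = F ⊓ M ∧ Related M d (e a)

end

/-- **One finite extension governs the Sato-Tate means over all number fields of degree at most
`n`.**  Let `K` be a number field, `f ∈ 𝓞_K[x]`, `Φ` a test function with `|Φ| ≤ 1` on the normalised
traces, `n ≥ 0`, `k ≥ 1`, and `S` an infinite set of scales.  There is a finite Galois extension `M`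
of `K` of degree at most `((4 n)!)^(4 n k²)` that governs the means of `Φ` up to `1/k` for the twists
of the Jacobian of `y² = f(x)` over all extensions of `K` of degree at most `n`. -/
theorem result (K : Type) [Field K] [NumberField K] (f : (𝓞 K)[X]) (g : ℕ)
    (Φ : (Fin g → ℝ) → ℝ) (hΦ : ∀ s, |Φ s| ≤ 1) (n k : ℕ) (hk : 1 ≤ k) (S : Set ℕ)
    (hS : S.Infinite) :
    ∃ M : IntermediateField K (AlgebraicClosure K),
      FiniteDimensional K M ∧ IsGalois K M ∧
      Module.finrank K M ≤ (4 * n).factorial ^ (4 * n * k ^ 2) ∧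
      Governs f Φ n k S M := by
  have hNB : (atTop ⊓ 𝓟 S : Filter ℕ).NeBot :=
    frequently_mem_iff_neBot.1 (Nat.frequently_atTop_iff_infinite.2 hS)
  obtain ⟨M, hM1, hM2, hM3, hdeg, hA, hB⟩ := Pool.Agent.W529.ST.main_C f g Φ hΦ n k hk
    (atTop ⊓ 𝓟 S) inf_le_left
  exact ⟨M, hM1, hM2, hdeg, hA, hB, Pool.Agent.W529.ST.list_C M⟩

end Pool.Agent.Results.MP_c481b3_nt.GoverningExtension
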