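import Mathlib
import Pool.Agent.W406.HM.Main

/-! # Moments of the traces of Frobenius of almost all hyperelliptic curves -/

namespace Pool.Agent.Results.MP_c481b3_nt.HyperellipticMoments

open Pool.Agent.W406.HM

/-- The integer vector `a` stands for the curve `y² = f(x)`, `f = X ^ (2 g + 1) + ∑ a i X ^ i`.
`good a p`: `p` is an odd prime and `f` is squarefree mod `p`; `tr a p` is minus the sum over `x`
mod `p` of the symbols `(f(x) / p)`; `mom m` is `(m - 1)!!` for even `m` and `0` for odd `m`;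
`dev m x a` is the sum over the good primes `p ≤ x` of `(tr a p / √p) ^ m - mom m`.
In every box of side `2 N` all but at most `N ^ (2 g + 1 - c)` of the `a` satisfy
`|dev m x a| ≤ x ^ (1/2 + ε)` for all `m ≤ 2 g + 1` and all `x` in the range. -/
theorem result (g : ℕ) (ε : ℝ) (hε : 0 < ε) :
    ∃ A c : ℝ, 0 < A ∧ 0 < c ∧ ∃ N₀ : ℕ, ∀ N : ℕ, N₀ ≤ N → ∀ b : Fin (2 * g + 1) → ℤ,
      ({a : Fin (2 * g + 1) → ℤ | (∀ i, |a i - b i| ≤ N) ∧
        ∃ x : ℕ, (Real.log N) ^ A ≤ x ∧ (x : ℝ) ≤ (N : ℝ) ^ c ∧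
        ∃ m : ℕ, m ≤ 2 * g + 1 ∧ (x : ℝ) ^ (1 / 2 + ε) < |dev m x a|}.ncard : ℝ) ≤
        (N : ℝ) ^ (((2 * g + 1 : ℕ) : ℝ) - c) :=
  main (2 * g + 1) ⟨g, rfl⟩ ε hε

end Pool.Agent.Results.MP_c481b3_nt.HyperellipticMoments
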