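import Pool.Agent.W529.ST.Ort4

/-! Joint equidistribution with Frobenius elements and base change, for all but boundedly many
linearly disjoint Galois extensions. -/

set_option autoImplicit false

namespace Pool.Agent.Results.MP_c481b3_nt.JointLaw

open NumberField IsDedekindDomain Filter Topology Pool.Agent.W529.ST
open Pool.Agent.W401.Cheb (GK IsFrob)

/-- the normalised classes `x v` are in the box `[-R, R]^g` -/
def InBox {K : Type} [Field K] [NumberField K] (g R : ℕ)
    (x : HeightOneSpectrum (𝓞 K) → Fin g → ℝ) : Prop := ∀ v m, |x v m| ≤ R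

open Classical in
/-- statements (1) and (2) at the scale `N` -/
def Uniform {K : Type} [Field K] [NumberField K] (Fr : HeightOneSpectrum (𝓞 K) → GK K)
    (T : Finset (Subgroup (GK K))) (N : ℕ) : Prop :=
  ∀ (g R k : ℕ) (x : HeightOneSpectrum (𝓞 K) → Fin g → ℝ), 1 ≤ k → InBox g R x →
    (T.filter (JointExc Fr x k N)).card ≤ 8 * (4 * R * k + 1) ^ g * k ^ 2 ∧
    ∑ U ∈ T.filter (SplitExc Fr x k N), 1 / (Nat.card (GK K ⧸ U) : ℝ) ≤
      32 * (4 * R * k + 1) ^ g * k ^ 2

open Classical in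
/-- statements (3) and (4) -/
def Transfer {K : Type} [Field K] [NumberField K] (Fr : HeightOneSpectrum (𝓞 K) → GK K)
    (T : Finset (Subgroup (GK K))) : Prop :=
  ∀ (g R k : ℕ) (x : HeightOneSpectrum (𝓞 K) → Fin g → ℝ) (I : ((Fin g → ℝ) → ℝ) → ℝ), 1 ≤ k →
    InBox g R x → (∀ φ, Test φ → Tendsto (mean K fun v => φ (x v)) atTop (𝓝 (I φ))) →
    ∀ᶠ N : ℕ in atTop, (T.filter (JointDev Fr x I k N)).card ≤ 32 * (8 * R * k + 1) ^ g * k ^ 2 ∧
    ∑ U ∈ T.filter (SplitDev Fr x I k N), 1 / (Nat.card (GK K ⧸ U) : ℝ) ≤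
      128 * (8 * R * k + 1) ^ g * k ^ 2

theorem result (K : Type) [Field K] [NumberField K] (Fr : HeightOneSpectrum (𝓞 K) → GK K)
    (hFr : ∀ v, IsFrob v (Fr v)) (T : Finset (Subgroup (GK K)))
    (hT : ∀ U ∈ T, U.Normal ∧ IsOpen (U : Set (GK K)))
    (hT' : ∀ U ∈ T, ∀ V ∈ T, U ≠ V → U ⊔ V = ⊤) :
    (∀ᶠ N : ℕ in atTop, Uniform Fr T N) ∧ Transfer Fr T := by
  classical
  have hU : ∀ᶠ N : ℕ in atTop, Uniform Fr T N := by
    filter_upwards [joint_bessel hFr T hT hT' zero_lt_one, split_le_two hFr T hT] with N hB hS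
    intro g R k x hk hx
    obtain ⟨κ, cen, hc⟩ := exists_cells_box g R k hk
    have h1 := joint_metric hT hB _ k hk κ cen x fun v => hc _ (hx v)
    have h2 := split_metric hT hB hS _ k hk κ cen x fun v => hc _ (hx v)
    refine ⟨h1, h2.trans (le_of_eq ?_)⟩
    push_cast
    ring
  refine ⟨hU, fun g R k x I hk hx hI => ?_⟩
  have hkR : (0 : ℝ) < k := by exact_mod_cast hk
  have hc := unif_conv (g := g) (R := R) Set.finite_empty (s := x) (fun v _ => hx v) I hI
    (ε := 1 / (2 * (k : ℝ))) (by positivity)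
  filter_upwards [hU, hc] with N hN hc
  obtain ⟨h1, h2⟩ := hN g R (2 * k) x (by omega) hx
  constructor
  · refine (Finset.card_le_card fun U hU => ?_).trans (h1.trans (le_of_eq ?_))
    · obtain ⟨hUT, h⟩ := Finset.mem_filter.1 hU
      exact Finset.mem_filter.2 ⟨hUT, jointDev_exc hk (hT U hUT).2 hc h⟩
    · rw [show 4 * R * (2 * k) = 8 * R * k by ring]
      ring
  · refine (Finset.sum_le_sum_of_subset_of_nonneg (fun U hU => ?_)
      fun U _ _ => by positivity).trans (h2.trans (le_of_eq ?_))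
    · obtain ⟨hUT, h⟩ := Finset.mem_filter.1 hU
      exact Finset.mem_filter.2 ⟨hUT, splitDev_exc hk hc h⟩
    · push_cast
      ring

end Pool.Agent.Results.MP_c481b3_nt.JointLaw
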